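import Pool.Agent.N728.QU.DefL
import Pool.Agent.N475.QH.H4L

set_option autoImplicit false

/-! # Project QU (helper728), part H4L (helper371): slowly varying weights for the Liouville function, uniformly in
the constant term. Adapted from Pool/Agent/N475/QH/H4L.lean (helper475). -/

namespace Pool.Agent.N371.QU

open Finset MeasureTheory Filter Topology Pool.Agent.N728.QL Pool.Agent.N728.QG Pool.Agent.N728.QU Pool.Agent.N475.QH

/-- the range below the level of distribution -/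
theorem lowu (c : ℤ) (E : ℕ → ℝ) (δ ε ρ : ℝ) (K K3 D C1 q B T U R u0 v0 B0 : ℕ) (g : ℝ → ℝ) (hδ : 0 < δ)
    (hε : 0 < ε) (hD : 1 ≤ D) (hρ : 1 < ρ) (hρ2 : ρ ≤ 2)
    (hH : ∀ B : ℕ, B0 ≤ B → ∀ T : ℕ, B ≤ T ^ (3 * D) → (T : ℝ) * Real.log B ^ C1 ≤ B →
      (c.natAbs : ℝ) ≤ ((K + 1 : ℕ) : ℝ) * ((B : ℝ) * T) * Real.log B ^ 2 → H4 0 ε q (K + 1) B T E)
    (hc : (c.natAbs : ℝ) ≤ K3 * ((B : ℝ) * T)) (h9c : 4 * (K3 : ℝ) ≤ Real.log B ^ 2)
    (hB0 : B0 ≤ B) (hBT : B ≤ T ^ D) (hTB : T ≤ K3 * B) (hU : U ≤ T)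
    (hR1 : ρ ^ R ≤ Real.log B ^ (C1 + 2)) (hR2 : Real.log B ^ (C1 + 2) < ρ ^ (R + 1))
    (hg1 : ∀ x, |g x| ≤ 1) (hg2 : ∀ x y, |g x - g y| ≤ (1 / (δ * B) + Real.log B / B) * |x - y|)
    (hg3 : ∀ x, (K : ℝ) * B ≤ x → g x = 0)
    (h1 : 1 ≤ Real.log B) (h4 : K + 1 ≤ B) (h6 : (2 * Real.log B ^ (C1 + 2)) ^ (3 * D) ≤ B)
    (h7 : 4 * Real.exp (1 / δ) ≤ Real.log B ^ (C1 + 2)) (h8 : 8 * K3 * 2 ^ C1 ≤ Real.log B ^ (C1 + 4)) :
    |∑ u ∈ (Icc 1 ⌊(U : ℝ) / ρ ^ R⌋₊).filter (fun u => u ≡ u0 [MOD q]),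
      ∑ v ∈ (Icc 1 ⌊(K : ℝ) * B * ρ ^ R⌋₊).filter (fun v => v ≡ v0 [MOD q]),
        g (Real.exp (Real.log v - R * Real.log ρ)) * E (u * v)| ≤ ε * ((B : ℝ) * T) := by
  have hρ0 : 0 < ρ := by linarith
  obtain ⟨P, hP⟩ : ∃ P : ℝ, P = ρ ^ R := ⟨_, rfl⟩
  obtain ⟨ℓ, hℓ⟩ : ∃ ℓ : ℝ, ℓ = Real.log B := ⟨_, rfl⟩
  rw [← hℓ] at hR1 hR2 hg2 h1 h6 h7 h8 h9c
  have hP1 : 1 ≤ P := by
    rw [hP]
    exact one_le_pow₀ hρ.le
  have hP0 : 0 < P := by linarith
  have hP3 : ℓ ^ (C1 + 2) ≤ 2 * P := by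
    rw [hP]
    rw [pow_succ ρ R] at hR2
    have : 0 < ρ ^ R := by positivity
    nlinarith
  rw [← hP] at hR1 ⊢
  have hℓA : 1 ≤ ℓ ^ (C1 + 2) := one_le_pow₀ h1
  have hB2 : 2 * ℓ ^ (C1 + 2) ≤ B := by
    refine le_trans ?_ h6
    exact le_self_pow₀ (by linarith) (by omega)
  have hB0' : (0 : ℝ) < B := by linarith
  have hBK : (K : ℝ) + 1 ≤ B := by exact_mod_cast h4
  obtain ⟨B', hB'⟩ : ∃ B' : ℕ, B' = ⌊(B : ℝ) * P⌋₊ := ⟨_, rfl⟩
  obtain ⟨T', hT'⟩ : ∃ T' : ℕ, T' = ⌊(T : ℝ) / P⌋₊ := ⟨_, rfl⟩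
  have b1 : (B' : ℝ) ≤ B * P := by
    rw [hB']
    exact Nat.floor_le (by positivity)
  have b2 : (B : ℝ) * P < B' + 1 := by
    rw [hB']
    exact Nat.lt_floor_add_one _
  have bBP : (B : ℝ) ≤ B * P := le_mul_of_one_le_right hB0'.le hP1
  have b3 : B ≤ B' := by
    rw [hB']
    exact Nat.le_floor bBP
  have b3' : (B : ℝ) ≤ B' := by exact_mod_cast b3
  have b4 : (B : ℝ) * P / 2 ≤ B' := by
    have : (2 : ℝ) ≤ B := by linarith
    have h9 : 2 ≤ (B : ℝ) * P := by linarith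
    linarith
  have hB'0 : (0 : ℝ) < B' := by linarith
  -- `T`
  have hTB' : (T : ℝ) ≤ K3 * B := by exact_mod_cast hTB
  have hBT' : (B : ℝ) ≤ (T : ℝ) ^ D := by exact_mod_cast hBT
  have hT2 : 2 * ℓ ^ (C1 + 2) ≤ T := by
    by_contra hc
    push Not at hc
    have h9 : (T : ℝ) ^ D < (2 * ℓ ^ (C1 + 2)) ^ D := pow_lt_pow_left₀ hc (Nat.cast_nonneg _) (by omega)
    have h10 : (2 * ℓ ^ (C1 + 2)) ^ D ≤ (2 * ℓ ^ (C1 + 2)) ^ (3 * D) := pow_le_pow_right₀ (by linarith) (by omega)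
    linarith
  have t1 : (T' : ℝ) ≤ T / P := by
    rw [hT']
    exact Nat.floor_le (by positivity)
  have t2 : (T : ℝ) / P < T' + 1 := by
    rw [hT']
    exact Nat.lt_floor_add_one _
  have t3 : (T : ℝ) / (2 * ℓ ^ (C1 + 2)) ≤ T' := by
    have h9 : 2 ≤ (T : ℝ) / P := by
      rw [le_div_iff₀ hP0]
      linarith
    have h10 : (T : ℝ) / (2 * ℓ ^ (C1 + 2)) ≤ T / P / 2 := by
      rw [div_div]
      apply div_le_div_of_nonneg_left (Nat.cast_nonneg _) (by positivity)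
      linarith
    linarith
  have t4 : (T : ℝ) / P / 2 ≤ T' := by
    have h9 : 2 ≤ (T : ℝ) / P := by
      rw [le_div_iff₀ hP0]
      linarith
    linarith
  -- the conditions
  have c1 : B' ≤ T' ^ (3 * D) := by
    have h9 : (B' : ℝ) ≤ (T' : ℝ) ^ (3 * D) := by
      calc (B' : ℝ) ≤ B * P := b1
        _ ≤ B * B := by
            apply mul_le_mul_of_nonneg_left _ hB0'.le
            linarith
        _ ≤ ((T : ℝ) / (2 * ℓ ^ (C1 + 2))) ^ (3 * D) := by
            rw [div_pow, le_div_iff₀ (by positivity)]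
            calc (B : ℝ) * B * (2 * ℓ ^ (C1 + 2)) ^ (3 * D) ≤ B * B * B := by
                  apply mul_le_mul_of_nonneg_left h6 (by positivity)
              _ = (B : ℝ) ^ 3 := by ring
              _ ≤ ((T : ℝ) ^ D) ^ 3 := pow_le_pow_left₀ hB0'.le hBT' 3
              _ = (T : ℝ) ^ (3 * D) := by
                  rw [← pow_mul, mul_comm D 3]
        _ ≤ (T' : ℝ) ^ (3 * D) := pow_le_pow_left₀ (by positivity) t3 _
    exact_mod_cast h9
  have hlogB' : Real.log B' ≤ 2 * ℓ := by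
    calc Real.log B' ≤ Real.log (B * B) := by
          apply Real.log_le_log hB'0
          refine b1.trans ?_
          apply mul_le_mul_of_nonneg_left _ hB0'.le
          linarith
      _ = 2 * ℓ := by
          rw [Real.log_mul hB0'.ne' hB0'.ne', ← hℓ]
          ring
  have hlogB'0 : ℓ ≤ Real.log B' := by
    rw [hℓ]
    exact Real.log_le_log hB0' b3'
  have c2 : (T' : ℝ) * Real.log B' ^ C1 ≤ B' := by
    calc (T' : ℝ) * Real.log B' ^ C1 ≤ (K3 * B / P) * (2 * ℓ) ^ C1 := by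
          apply mul_le_mul _ (pow_le_pow_left₀ (by linarith) hlogB' _) (pow_nonneg (by linarith) _) (by positivity)
          refine t1.trans ?_
          exact div_le_div_of_nonneg_right hTB' hP0.le
      _ ≤ B * P / 2 := by
          rw [div_mul_eq_mul_div, div_le_iff₀ hP0]
          have h9 : 8 * (K3 : ℝ) * 2 ^ C1 * ℓ ^ C1 ≤ 4 * (P * P) := by
            calc 8 * (K3 : ℝ) * 2 ^ C1 * ℓ ^ C1 ≤ ℓ ^ (C1 + 4) * ℓ ^ C1 := by
                  apply mul_le_mul_of_nonneg_right h8 (pow_nonneg (by linarith) _)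
              _ = ℓ ^ (C1 + 2) * ℓ ^ (C1 + 2) := by
                  rw [← pow_add, ← pow_add]
                  congr 1
                  omega
              _ ≤ (2 * P) * (2 * P) := mul_le_mul hP3 hP3 (by linarith) (by linarith)
              _ = 4 * (P * P) := by ring
          rw [mul_pow]
          have h10 : (K3 : ℝ) * B * (2 ^ C1 * ℓ ^ C1) = B * (8 * (K3 : ℝ) * 2 ^ C1 * ℓ ^ C1) / 8 := by ring
          rw [h10]
          have h11 : (B : ℝ) * P / 2 * P = B * (4 * (P * P)) / 8 := by ring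
          rw [h11]
          apply div_le_div_of_nonneg_right _ (by norm_num)
          exact mul_le_mul_of_nonneg_left h9 hB0'.le
      _ ≤ B' := b4
  have c3 : (c.natAbs : ℝ) ≤ ((K + 1 : ℕ) : ℝ) * ((B' : ℝ) * T') * Real.log B' ^ 2 := by
    have h9 : (B : ℝ) * T / 4 ≤ (B' : ℝ) * T' := by
      calc (B : ℝ) * T / 4 = (B * P / 2) * (T / P / 2) := by
            field_simp
            try ring
        _ ≤ (B' : ℝ) * T' := mul_le_mul b4 t4 (by positivity) (Nat.cast_nonneg _)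
    have h10 : 4 * (K3 : ℝ) ≤ Real.log B' ^ 2 :=
      h9c.trans (pow_le_pow_left₀ (by linarith) hlogB'0 2)
    have h11 : (1 : ℝ) ≤ ((K + 1 : ℕ) : ℝ) := by
      push_cast
      have : (0 : ℝ) ≤ K := Nat.cast_nonneg _
      linarith
    have h12 : (0 : ℝ) ≤ (B' : ℝ) * T' := by positivity
    calc (c.natAbs : ℝ) ≤ K3 * ((B : ℝ) * T) := hc
      _ = (4 * K3) * ((B : ℝ) * T / 4) := by ring
      _ ≤ Real.log B' ^ 2 * ((B' : ℝ) * T') := mul_le_mul h10 h9 (by positivity) (by positivity)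
      _ = 1 * ((B' : ℝ) * T') * Real.log B' ^ 2 := by ring
      _ ≤ ((K + 1 : ℕ) : ℝ) * ((B' : ℝ) * T') * Real.log B' ^ 2 :=
          mul_le_mul_of_nonneg_right (mul_le_mul_of_nonneg_right h11 h12) (sq_nonneg _)
  have hH' := hH B' (hB0.trans b3) T' c1 c2 c3
  -- the step
  have hlog2 : ℓ + 1 / δ ≤ Real.log B' := by
    rw [← Real.log_exp (1 / δ), hℓ, ← Real.log_mul hB0'.ne' (Real.exp_pos _).ne']
    apply Real.log_le_log (by positivity)
    refine le_trans ?_ b4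
    have h9 : Real.exp (1 / δ) ≤ P / 2 := by linarith
    have h10 := mul_le_mul_of_nonneg_left h9 hB0'.le
    linarith
  have hexp : ∀ v : ℕ, 1 ≤ v → Real.exp (Real.log v - R * Real.log ρ) = v / P := by
    intro v hv
    have hv0 : (0 : ℝ) < v := by exact_mod_cast hv
    rw [Real.exp_sub, Real.exp_log hv0, mul_comm, Real.exp_mul, Real.exp_log hρ0, Real.rpow_natCast, hP]
  have hq := hH' 0 ⌊(U : ℝ) / P⌋₊ u0 v0 (fun v => g (v / P)) (Nat.zero_le _)
    (by
      rw [hT']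
      apply Nat.floor_le_floor
      apply div_le_div_of_nonneg_right _ hP0.le
      exact_mod_cast hU)
    (fun v => hg1 _)
    (fun v => by
      refine (hg2 _ _).trans ?_
      have e1 : |((v + 1 : ℕ) : ℝ) / P - v / P| = 1 / P := by
        rw [← sub_div]
        push_cast
        rw [add_sub_cancel_left, abs_of_pos (by positivity)]
      rw [e1]
      have e2 : (1 / (δ * B) + ℓ / B) * (1 / P) = (ℓ + 1 / δ) / (B * P) := by
        field_simp
        try ring
      rw [e2]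
      apply div_le_div₀ _ hlog2 hB'0 b1
      linarith)
  rw [zero_div, zero_mul, zero_add] at hq
  have e1 : ∑ u ∈ (Ioc 0 ⌊(U : ℝ) / P⌋₊).filter (fun u => u ≡ u0 [MOD q]),
        ∑ v ∈ (Icc 1 ((K + 1) * B')).filter (fun v => v ≡ v0 [MOD q]), g (v / P) * E (u * v) =
      ∑ u ∈ (Icc 1 ⌊(U : ℝ) / P⌋₊).filter (fun u => u ≡ u0 [MOD q]),
        ∑ v ∈ (Icc 1 ⌊(K : ℝ) * B * P⌋₊).filter (fun v => v ≡ v0 [MOD q]),
          g (Real.exp (Real.log v - R * Real.log ρ)) * E (u * v) := by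
    refine Finset.sum_congr rfl fun u _ => ?_
    symm
    rw [Finset.sum_congr rfl (g := fun v : ℕ => g ((v : ℝ) / P) * E (u * v))]
    · apply Finset.sum_subset
      · apply Finset.filter_subset_filter
        apply Finset.Icc_subset_Icc le_rfl
        apply Nat.floor_le_of_le
        push_cast
        have h9 : (K : ℝ) + 1 ≤ B * P := by linarith
        have h10 : (K + 1 : ℝ) * (B * P) ≤ (K + 1) * (B' + 1) := by
          apply mul_le_mul_of_nonneg_left b2.le (by positivity)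
        nlinarith
      · intro v hv hv2
        rw [mem_filter, mem_Icc] at hv
        rw [mem_filter, mem_Icc] at hv2
        have h9 : ⌊(K : ℝ) * B * P⌋₊ < v := by
          by_contra hc
          push Not at hc
          exact hv2 ⟨⟨hv.1.1, hc⟩, hv.2⟩
        have h10 : (K : ℝ) * B * P < v := (Nat.floor_lt (by positivity)).1 h9
        rw [hg3 _ (by
          rw [le_div_iff₀ hP0]
          exact h10.le), zero_mul]
    · intro v hv
      rw [mem_filter, mem_Icc] at hv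
      rw [hexp v hv.1.1]
  rw [e1] at hq
  refine hq.trans ?_
  apply mul_le_mul_of_nonneg_left _ hε.le
  calc (B' : ℝ) * T' ≤ (B * P) * (T / P) := mul_le_mul b1 t1 (Nat.cast_nonneg _) (by positivity)
    _ = B * T := by
        field_simp

theorem ev2 (K3 : ℕ) : ∀ᶠ B : ℕ in atTop, 4 * (K3 : ℝ) ≤ Real.log B ^ 2 := by
  have hlog : Tendsto (fun B : ℕ => Real.log B) atTop atTop :=
    Real.tendsto_log_atTop.comp tendsto_natCast_atTop_atTop
  exact ((tendsto_pow_atTop (two_ne_zero)).comp hlog).eventually_ge_atTop _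

/-- H4Lu. -/
theorem t_H4Lu (hSH : S_SH) (hB4 : S_B4Lu) (hUU : S_UU) : S_H4Lu := by
  intro K K3 D q ε hK hD hq hε
  obtain ⟨C1, hC1⟩ := hB4
  have hK1 : (1 : ℝ) ≤ K := by exact_mod_cast hK
  have hK0 : (0 : ℝ) < K := by linarith
  obtain ⟨δ, hδ⟩ : ∃ δ : ℝ, δ = min (1 / 4) (ε / (12 * K)) := ⟨_, rfl⟩
  have hδ0 : 0 < δ := by
    rw [hδ]
    exact lt_min (by norm_num) (by positivity)
  have hδ1 : δ ≤ 1 / 4 := by
    rw [hδ]
    exact min_le_left _ _
  have hδ2 : δ * (12 * K) ≤ ε := by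
    rw [← le_div_iff₀ (by positivity), hδ]
    exact min_le_right _ _
  obtain ⟨C, hC, k, B1, hU⟩ := hUU (8 * (D + 1)) (by omega)
  obtain ⟨ρ, hρ1, hρ2, B2, hS⟩ := hSH C (ε / 6) k (D + 1) K 2 q (C1 + 2) ⌈Real.log (1 / δ)⌉₊ hC (by positivity)
    (by omega) hK hq
  obtain ⟨B3, hB3⟩ := hC1 (K + 1) (3 * D) q (ε / 6) (by omega) (by omega) hq (by positivity)
  obtain ⟨B4, hB4⟩ := eventually_atTop.1 (evs δ ε K K3 D C1 hε)
  obtain ⟨B5, hB5⟩ := eventually_atTop.1 (ev2 K3)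
  refine ⟨max B5 (max (max B1 B2) (max B3 B4)), fun B hBx T c hc hBT hTB hcK => ?_⟩
  have hB : max (max B1 B2) (max B3 B4) ≤ B := (le_max_right _ _).trans hBx
  have hBB5 : B5 ≤ B := (le_max_left _ _).trans hBx
  have hBB1 : B1 ≤ B := ((le_max_left _ _).trans (le_max_left _ _)).trans hB
  have hBB2 : B2 ≤ B := ((le_max_right _ _).trans (le_max_left _ _)).trans hB
  have hBB3 : B3 ≤ B := ((le_max_left _ _).trans (le_max_right _ _)).trans hB
  have hBB4 : B4 ≤ B := ((le_max_right _ _).trans (le_max_right _ _)).trans hB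
  have h9c := hB5 B hBB5
  obtain ⟨h1, h2, h3, h4, h5, h6, h7, h8, h9⟩ := hB4 B hBB4
  intro U1 U2 u0 v0 Gv hU12 hU2 hG1 hG2
  have hBp : 0 < B := by omega
  have hB0 : (0 : ℝ) < B := by exact_mod_cast hBp
  have hT0 : (0 : ℝ) ≤ T := Nat.cast_nonneg _
  obtain ⟨E, hE⟩ : ∃ E : ℕ → ℝ, E = fun n : ℕ => lam ((n : ℤ) + c) := ⟨_, rfl⟩
  have hE1 : ∀ n, |E n| ≤ 1 := fun n => by
    rw [hE]
    exact lam_le _
  have hB3' : ∀ B : ℕ, B3 ≤ B → ∀ T : ℕ, B ≤ T ^ (3 * D) → (T : ℝ) * Real.log B ^ C1 ≤ B →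
      (c.natAbs : ℝ) ≤ ((K + 1 : ℕ) : ℝ) * ((B : ℝ) * T) * Real.log B ^ 2 →
      H4 0 (ε / 6) q (K + 1) B T E := by
    rw [hE]
    intro B hb T h1 h2 h3
    exact hB3 B hb T c hc h1 h2 h3
  show |∑ u ∈ (Ioc U1 U2).filter (fun u => u ≡ u0 [MOD q]), ∑ v ∈ (Icc 1 (K * B)).filter (fun v => v ≡ v0 [MOD q]),
    Gv v * lam (((u * v : ℕ) : ℤ) + c)| ≤ _
  have hEE : ∀ n : ℕ, lam ((n : ℤ) + c) = E n := fun n => by rw [hE]
  simp only [hEE]
  obtain ⟨g, hg1, hg2, hg3, hg4, hg5⟩ := mk_g Gv (Real.log B / B) (δ * B) (K * B)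
    (div_nonneg (by linarith) hB0.le) (by positivity) hG1 hG2
  -- one sum
  have key : ∀ U : ℕ, U ≤ T → |SS E q u0 v0 U (K * B) (fun v => g v)| ≤ ε / 3 * (B * T) := by
    intro U hUT
    have hUT' : (U : ℝ) ≤ T := by exact_mod_cast hUT
    by_cases hUd : (U : ℝ) < δ * T
    · refine (SS_le E hE1 q u0 v0 U (K * B) _ fun v => hg1 _).trans ?_
      push_cast
      calc (U : ℝ) * (K * B) ≤ δ * T * (K * B) := mul_le_mul_of_nonneg_right hUd.le (by positivity)
        _ = (δ * (12 * K)) * (B * T) / 12 := by ring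
        _ ≤ ε * (B * T) / 12 := by
            apply div_le_div_of_nonneg_right _ (by norm_num)
            exact mul_le_mul_of_nonneg_right hδ2 (by positivity)
        _ ≤ ε / 3 * (B * T) := by
            have : 0 ≤ ε * (B * T) := by positivity
            linarith
    · push Not at hUd
      obtain ⟨R, hR1, hR2⟩ := exists_nat_pow_near (one_le_pow₀ h1 (n := C1 + 2)) hρ1
      have hTd : (1 / δ) ^ (D + 1) ≤ T := by
        have e1 : ⌈(1 / δ) ^ (D + 1)⌉₊ ^ D < T ^ D := lt_of_lt_of_le h6 hBT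
        have e2 : ⌈(1 / δ) ^ (D + 1)⌉₊ < T := lt_of_pow_lt_pow_left₀ D (Nat.zero_le _) e1
        have e3 : ((⌈(1 / δ) ^ (D + 1)⌉₊ : ℕ) : ℝ) < T := by exact_mod_cast e2
        exact (Nat.le_ceil _).trans e3.le
      have hBU : B ≤ U ^ (D + 1) := by
        have e1 : (B : ℝ) ≤ (U : ℝ) ^ (D + 1) := by
          have e2 : (δ * T) ^ (D + 1) ≤ (U : ℝ) ^ (D + 1) := pow_le_pow_left₀ (by positivity) hUd _
          refine le_trans ?_ e2
          rw [mul_pow, pow_succ (T : ℝ)]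
          have e3 : (B : ℝ) ≤ (T : ℝ) ^ D := by exact_mod_cast hBT
          have e4 : 1 ≤ δ ^ (D + 1) * T := by
            rw [one_div, inv_pow, inv_le_iff_one_le_mul₀ (by positivity), mul_comm] at hTd
            exact hTd
          calc (B : ℝ) ≤ (T : ℝ) ^ D * 1 := by rw [mul_one]; exact e3
            _ ≤ (T : ℝ) ^ D * (δ ^ (D + 1) * T) := mul_le_mul_of_nonneg_left e4 (by positivity)
            _ = δ ^ (D + 1) * ((T : ℝ) ^ D * T) := by ring
        exact_mod_cast e1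
      have hUB : U ≤ B ^ (D + 1) := by
        calc U ≤ K3 * B := hUT.trans hTB
          _ ≤ B * B := Nat.mul_le_mul_right _ h4
          _ = B ^ 2 := by ring
          _ ≤ B ^ (D + 1) := Nat.pow_le_pow_right hBp (by omega)
      have hLe : (1 / (δ * B) + Real.log B / B) * (K * B) = K * (Real.log B + 1 / δ) := by
        field_simp
        try ring
      have hs := hS B hBB2 (fun _ => 1) E hE1 (hU B hBB1).1 (hU B hBB1).2 R U u0 v0 (fun s => g (Real.exp s))
        (K * (Real.log B + 1 / δ)) hR1 hBU hUB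
        (by
          have e1 : 0 < 1 / δ := by positivity
          have e2 : 1 * 1 ≤ (K : ℝ) * (Real.log B + 1 / δ) := mul_le_mul hK1 (by linarith) zero_le_one hK0.le
          linarith)
        h3 (fun s => (hg1 _).trans (by norm_num))
        (fun s s' => by
          have e1 := exp_lip g (1 / (δ * B) + Real.log B / B) (K * B)
            (add_nonneg (by positivity) (div_nonneg (by linarith) hB0.le)) (by positivity) hg2
            (fun x hx => hg3 x (Or.inr hx)) s s'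
          rw [hLe] at e1
          exact e1)
        (fun s hs => by
          apply hg3
          by_cases e1 : Real.log B - ⌈Real.log (1 / δ)⌉₊ ≤ s
          · right
            have e2 : Real.log (K * B) < s := by
              by_contra e3
              exact hs ⟨e1, not_lt.1 e3⟩
            rw [← Real.exp_log (show (0 : ℝ) < K * B by positivity)]
            exact Real.exp_le_exp.2 e2.le
          · left
            push Not at e1
            have e2 := Nat.le_ceil (Real.log (1 / δ))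
            have e3 : s ≤ Real.log (δ * B) := by
              rw [Real.log_mul hδ0.ne' hB0.ne']
              rw [one_div, Real.log_inv] at e2 e1
              linarith
            rw [← Real.exp_log (show (0 : ℝ) < δ * B by positivity)]
            exact Real.exp_le_exp.2 e3)
      have hlow := lowu c E δ (ε / 6) ρ K K3 D C1 q B T U R u0 v0 B3 g hδ0 (by positivity) hD hρ1 hρ2 hB3' hcK h9c
        hBB3 hBT hTB hUT hR1 hR2 hg1 hg2 (fun x hx => hg3 x (Or.inr hx)) h1 h5 h7 h8 h9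
      have hSS : SS E q u0 v0 U (K * B) (fun v => g v) =
          ∑ u ∈ (Icc 1 U).filter (fun u => u ≡ u0 [MOD q]), ∑ v ∈ (Icc 1 (K * B)).filter (fun v => v ≡ v0 [MOD q]),
            g (Real.exp (Real.log v)) * E (u * v) := by
        unfold SS
        refine Finset.sum_congr rfl fun u _ => Finset.sum_congr rfl fun v hv => ?_
        rw [mem_filter, mem_Icc] at hv
        have hv0 : (0 : ℝ) < v := by exact_mod_cast hv.1.1
        rw [Real.exp_log hv0]
      rw [hSS]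
      have e1 := abs_sub_abs_le_abs_sub (∑ u ∈ (Icc 1 U).filter (fun u => u ≡ u0 [MOD q]),
        ∑ v ∈ (Icc 1 (K * B)).filter (fun v => v ≡ v0 [MOD q]), g (Real.exp (Real.log v)) * E (u * v))
        (∑ u ∈ (Icc 1 ⌊(U : ℝ) / ρ ^ R⌋₊).filter (fun u => u ≡ u0 [MOD q]),
          ∑ v ∈ (Icc 1 ⌊(K : ℝ) * B * ρ ^ R⌋₊).filter (fun v => v ≡ v0 [MOD q]),
            g (Real.exp (Real.log v - R * Real.log ρ)) * E (u * v))
      have e2 : ε / 6 * ((B : ℝ) * U) ≤ ε / 6 * (B * T) := by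
        apply mul_le_mul_of_nonneg_left _ (by positivity)
        exact mul_le_mul_of_nonneg_left hUT' hB0.le
      have e3 := e1.trans hs
      linarith
  -- the cut-offs
  have hcut : |∑ u ∈ (Ioc U1 U2).filter (fun u => u ≡ u0 [MOD q]),
      ∑ v ∈ (Icc 1 (K * B)).filter (fun v => v ≡ v0 [MOD q]), (Gv v - g v) * E (u * v)| ≤ ε / 3 * (B * T) := by
    have hcc := cut_cost Gv g (δ * B) (K * B) (by positivity) hg4
      (fun v hv1 hv2 => (hg5 v hv1 (by push_cast at hv2; exact hv2)))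
    have hin : ∀ u : ℕ, |∑ v ∈ (Icc 1 (K * B)).filter (fun v => v ≡ v0 [MOD q]), (Gv v - g v) * E (u * v)| ≤
        3 * (δ * B) + 1 := by
      intro u
      refine (Finset.abs_sum_le_sum_abs _ _).trans ?_
      refine le_trans ?_ hcc
      calc _ ≤ ∑ v ∈ (Icc 1 (K * B)).filter (fun v => v ≡ v0 [MOD q]), |Gv v - g v| := by
            refine Finset.sum_le_sum fun v _ => ?_
            rw [abs_mul]
            exact mul_le_of_le_one_right (abs_nonneg _) (hE1 _)
        _ ≤ _ := Finset.sum_le_sum_of_subset_of_nonneg (Finset.filter_subset _ _) fun _ _ _ => abs_nonneg _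
    have hcard : (((Ioc U1 U2).filter (fun u => u ≡ u0 [MOD q])).card : ℝ) ≤ T := by
      have e1 := Finset.card_filter_le (Ioc U1 U2) (fun u => u ≡ u0 [MOD q])
      rw [Nat.card_Ioc] at e1
      have e2 : U2 - U1 ≤ T := by omega
      exact_mod_cast e1.trans e2
    calc _ ≤ ∑ u ∈ (Ioc U1 U2).filter (fun u => u ≡ u0 [MOD q]), (3 * (δ * B) + 1) :=
          (Finset.abs_sum_le_sum_abs _ _).trans (Finset.sum_le_sum fun u _ => hin u)
      _ ≤ T * (3 * (δ * B) + 1) := by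
          rw [Finset.sum_const, nsmul_eq_mul]
          exact mul_le_mul_of_nonneg_right hcard (by positivity)
      _ ≤ ε / 3 * (B * T) := by
          have e1 : 3 * (δ * B) ≤ ε * B / 4 := by
            have e2 : δ * 12 ≤ ε := by nlinarith
            nlinarith
          have e3 : 3 * (δ * B) + 1 ≤ ε / 3 * B := by linarith
          calc (T : ℝ) * (3 * (δ * B) + 1) ≤ T * (ε / 3 * B) := mul_le_mul_of_nonneg_left e3 hT0
            _ = ε / 3 * (B * T) := by ring
  have hsplit : ∑ u ∈ (Ioc U1 U2).filter (fun u => u ≡ u0 [MOD q]),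
      ∑ v ∈ (Icc 1 (K * B)).filter (fun v => v ≡ v0 [MOD q]), Gv v * E (u * v) =
      ∑ u ∈ (Ioc U1 U2).filter (fun u => u ≡ u0 [MOD q]),
        ∑ v ∈ (Icc 1 (K * B)).filter (fun v => v ≡ v0 [MOD q]), (Gv v - g v) * E (u * v) +
      (SS E q u0 v0 U2 (K * B) (fun v => g v) - SS E q u0 v0 U1 (K * B) (fun v => g v)) := by
    rw [← SS_diff E q u0 v0 U1 U2 (K * B) hU12, ← Finset.sum_add_distrib]
    refine Finset.sum_congr rfl fun u _ => ?_
    rw [← Finset.sum_add_distrib]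
    refine Finset.sum_congr rfl fun v _ => ?_
    ring
  rw [hsplit, zero_div, zero_mul, zero_add]
  have k1 := key U1 (hU12.trans hU2)
  have k2 := key U2 hU2
  refine (abs_add_le _ _).trans ?_
  have k3 := abs_sub (SS E q u0 v0 U2 (K * B) (fun v => g v)) (SS E q u0 v0 U1 (K * B) (fun v => g v))
  linarith

end Pool.Agent.N371.QU
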